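import Pool.Agent.H242R3.ES.StmtsN

/-! helper826: task ES-N8a of project H242-ES. -/

set_option autoImplicit false

open Finset
open scoped Classical

namespace Pool.Agent.H826R3.ES

open Pool.Agent.H242R3.ES

lemma l_Y_zero {ι E : Type} [Fintype ι] [AddCommGroup E] [Module ℝ E] (V : ι → E)
    (l : E →ₗ[ℝ] ℝ) (T : Set ι) (h : ∀ k ∈ T, l (V k) = 0) : l (Y V T) = 0 := by
  unfold Y
  rw [map_sum]
  exact Finset.sum_eq_zero fun k hk => h k (Finset.mem_filter.1 hk).2

lemma l_Y_pos {ι E : Type} [Fintype ι] [AddCommGroup E] [Module ℝ E] (V : ι → E)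
    (l : E →ₗ[ℝ] ℝ) (T : Set ι) (h : ∀ k, 0 ≤ l (V k)) (k₀ : ι) (hk₀ : k₀ ∈ T)
    (hp : 0 < l (V k₀)) : 0 < l (Y V T) := by
  unfold Y
  rw [map_sum]
  exact Finset.sum_pos' (fun k _ => h k)
    ⟨k₀, Finset.mem_filter.2 ⟨Finset.mem_univ _, hk₀⟩, hp⟩

theorem t : TaskN8a := by
  intro _ hFl ι E _ _ _ _ V j o m p h8 s hs
  obtain ⟨_, _, htop, _⟩ := hFl ι E V j m h8.vert h8.span h8.fin h8.one
  obtain ⟨T₀, hT₀s, _, hT₀⟩ := htop s hs
  have hs' := (Finset.mem_filter.1 hs).2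
  obtain ⟨_, hFA, hchain⟩ := hs'
  rw [Fintype.linearIndependent_iff]
  intro g hg
  by_contra hcon
  push Not at hcon
  obtain ⟨Tx, hTx⟩ := hcon
  -- the relation in `E`
  have hker : (∑ T : s, g T • Y V (T : Set ι)) ∈ LinearMap.ker p := by
    rw [LinearMap.mem_ker, map_sum, ← hg]
    exact Finset.sum_congr rfl fun T _ => by rw [map_smul]
  rw [h8.ker, Submodule.mem_span_pair] at hker
  obtain ⟨α, β, hαβ⟩ := hker
  have happ : ∀ l : E →ₗ[ℝ] ℝ, α * l (V j) + β * l o = ∑ T : s, g T * l (Y V (T : Set ι)) := by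
    intro l
    have := congrArg l hαβ
    rw [map_add, map_smul, map_smul, map_sum, smul_eq_mul, smul_eq_mul] at this
    rw [this]
    exact Finset.sum_congr rfl fun T _ => by rw [map_smul, smul_eq_mul]
  -- the top face gives `β = 0`
  have hβ : β = 0 := by
    obtain ⟨hF, hjT, _, hne⟩ := hFA T₀ hT₀s
    obtain ⟨l, hl0, hl⟩ := hF
    have hlj : l (V j) = 0 := (hl j).1 hjT
    have hlne : l ≠ 0 := by
      intro h0
      apply hne
      ext i
      simp only [Set.mem_univ, iff_true]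
      exact (hl i).2 (by rw [h0]; rfl)
    have hlo : 0 < l o := h8.opp l hl0 hlj hlne
    have h1 := happ l
    have h2 : ∑ T : s, g T * l (Y V (T : Set ι)) = 0 := by
      refine Finset.sum_eq_zero fun T _ => ?_
      rw [l_Y_zero V l _ (fun k hk => (hl k).1 (hT₀ _ T.2 hk)), mul_zero]
    rw [h2, hlj, mul_zero, zero_add] at h1
    rcases mul_eq_zero.1 h1 with h | h
    · exact h
    · exact absurd h hlo.ne'
  -- the largest face with a nonzero coefficient
  obtain ⟨T₁, hT₁, hmax⟩ := Finset.exists_max_image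
    (Finset.univ.filter fun T : s => g T ≠ 0) (fun T => Set.ncard (T : Set ι))
    ⟨Tx, Finset.mem_filter.2 ⟨Finset.mem_univ _, hTx⟩⟩
  have hgT₁ : g T₁ ≠ 0 := (Finset.mem_filter.1 hT₁).2
  have hsub : ∀ T : s, g T ≠ 0 → (T : Set ι) ⊆ (T₁ : Set ι) := by
    intro T hT
    have hc := hmax T (Finset.mem_filter.2 ⟨Finset.mem_univ _, hT⟩)
    rcases hchain _ T.2 _ T₁.2 with h | h
    · exact h
    · exact (Set.eq_of_subset_of_ncard_le h hc (Set.toFinite _)).ge
  obtain ⟨_, hjT₁, hT₁j, _⟩ := hFA _ T₁.2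
  -- the face below it
  obtain ⟨R, hR, hRmax⟩ := Finset.exists_max_image
    (insert ({j} : Set ι) (s.filter fun T => T ⊂ (T₁ : Set ι))) (fun T => Set.ncard T)
    ⟨_, Finset.mem_insert_self _ _⟩
  have hRF : Face V R := by
    rcases Finset.mem_insert.1 hR with h | h
    · rw [h]; exact h8.vert j
    · exact (hFA _ (Finset.mem_filter.1 h).1).1
  have hRT₁ : R ⊂ (T₁ : Set ι) := by
    rcases Finset.mem_insert.1 hR with h | h
    · rw [h]
      exact (Set.singleton_subset_iff.2 hjT₁).ssubset_of_ne (Ne.symm hT₁j)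
    · exact (Finset.mem_filter.1 h).2
  have hjR : j ∈ R := by
    rcases Finset.mem_insert.1 hR with h | h
    · rw [h]; exact Set.mem_singleton j
    · exact (hFA _ (Finset.mem_filter.1 h).1).2.1
  have hbelow : ∀ T ∈ s, T ⊂ (T₁ : Set ι) → T ⊆ R := by
    intro T hT hTT₁
    have hc := hRmax T (Finset.mem_insert_of_mem (Finset.mem_filter.2 ⟨hT, hTT₁⟩))
    have hcomp : T ⊆ R ∨ R ⊆ T := by
      rcases Finset.mem_insert.1 hR with h | h
      · right
        rw [h]
        exact Set.singleton_subset_iff.2 (hFA T hT).2.1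
      · exact hchain T hT R (Finset.mem_filter.1 h).1
    rcases hcomp with h | h
    · exact h
    · exact (Set.eq_of_subset_of_ncard_le h hc (Set.toFinite _)).ge
  obtain ⟨l, hl0, hl⟩ := hRF
  have hlj : l (V j) = 0 := (hl j).1 hjR
  have h1 := happ l
  rw [hβ, zero_mul, add_zero, hlj, mul_zero] at h1
  rw [Finset.sum_eq_single T₁] at h1
  · obtain ⟨k₀, hk₀, hk₀R⟩ := Set.exists_of_ssubset hRT₁
    have hpos : 0 < l (V k₀) :=
      lt_of_le_of_ne (hl0 k₀) (fun h => hk₀R ((hl k₀).2 h.symm))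
    have h2 := l_Y_pos V l (T₁ : Set ι) hl0 k₀ hk₀ hpos
    exact (mul_ne_zero hgT₁ h2.ne') h1.symm
  · intro T _ hTT₁
    by_cases hgT : g T = 0
    · rw [hgT, zero_mul]
    · have hss : (T : Set ι) ⊂ (T₁ : Set ι) :=
        (hsub T hgT).ssubset_of_ne (fun h => hTT₁ (Subtype.ext h))
      rw [l_Y_zero V l _ (fun k hk => (hl k).1 (hbelow _ T.2 hss hk)), mul_zero]
  · intro h
    exact absurd (Finset.mem_univ _) h

end Pool.Agent.H826R3.ES
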